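import Pool.Agent.H59K.MJ

/-!
# The New Doomsday Conjecture for almost all classes on every line

`Ext n` is the Adams `n`-line, the cohomology of the cobar complex of the mod 2 dual Steenrod
algebra (`Pool.Agent.W624.NDst`); `x_j` is the `j`-th member of the `Sq⁰`-family of a class `x`.
`Bruner d₂` says that `d₂` satisfies Bruner's formula `d₂ (Sq⁰ x) = h₀ Sq¹ x`, as the Adams
differential does.

Let `n ≥ 2` (`n = s + 2` in the Lean).  There are `J`, `X₀` and `c, C > 0` such that for all
`X ≥ X₀` the following is true.  Let `Fam n J X` be the set of the non-nilpotent homogeneous classes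
`x` on the line `n` of internal degree at most `X`, two of them being identified if their families
agree from the `J`-th member on.  This is a finite set with at least `c (log X) ^ n` and at most
`C (log X) ^ n` elements.  It has a subset `E` with at least `c (log X) ^ (n - 1)` and at most
`C (log X) ^ (n - 1)` elements such that the members `x_j`, `j ≥ J`, are all `d₂`-cycles if `x` is
in `E`, and none of them is a `d₂`-cycle if `x` is not in `E`.  All but at most
`C (log X) ^ ⌊n / 2⌋` of the classes `x` in `E` have `x_J = Sq¹ v` for a homogeneous class `v` on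
the line `n - 1`.

So the conclusion of the conjecture is true for almost all classes on the line `n`, ordered by the
degree.
-/

set_option autoImplicit false

namespace Pool.Agent.Results.MP_701abf_gt.AlmostAllClasses

open Pool.Agent.W624.NS Pool.Agent.H59K

theorem result (s : ℕ) : ∃ (J : ℕ) (c C : ℝ) (X₀ : ℕ), 0 < c ∧ ∀ X : ℕ, X₀ ≤ X →
    (Fam (s + 2) J X).Finite ∧
    c * Real.log X ^ (s + 2) ≤ (Fam (s + 2) J X).ncard ∧
    (Fam (s + 2) J X).ncard ≤ C * Real.log X ^ (s + 2) ∧
    ∃ E ⊆ Fam (s + 2) J X,
      c * Real.log X ^ (s + 1) ≤ E.ncard ∧ E.ncard ≤ C * Real.log X ^ (s + 1) ∧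
      ({y | y ∈ E ∧ ¬ ∃ (u : ℕ) (v : Z (s + 1)), IsHom (s + 1) u v.1 ∧
        y = cl (Sq1 (s + 1) v)}.ncard : ℝ) ≤ C * Real.log X ^ ((s + 2) / 2) ∧
      ∀ d₂ : (n : ℕ) → Ext n → Ext (n + 2), Bruner d₂ → ∀ y ∈ Fam (s + 2) J X, ∀ j,
        (d₂ (s + 2) ((Sq0 (s + 2))^[j] y) = 0 ↔ y ∈ E) :=
  final_form s

end Pool.Agent.Results.MP_701abf_gt.AlmostAllClasses
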