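import Pool.Agent.H59K.KZ2

/-!
# The `d₂`-cycles in the `Sq⁰`-families of a line are finitely generated, up to `Sq¹`

`Ext s` is the Adams `s`-line, the cohomology of the cobar complex of the mod 2 dual Steenrod
algebra (`Pool.Agent.W624.NDst`); `x_j` is the `j`-th member of the `Sq⁰`-family of a class `x`.
`Poly F n t z` says that the cochain `z` of the line `n` and of internal degree `t` is obtained from
homogeneous coboundaries and from members `f ^ (2 ^ k)` of the `Sq⁰`-families of homogeneous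
elements `f` of the sets `F m`, `m > 0`, by products and by sums of elements of the same degree.
`Bruner d₂` says that `d₂` satisfies Bruner's formula `d₂ (Sq⁰ x) = h₀ Sq¹ x`, as the Adams
differential does.

There are finite sets `A n`, `F n` of homogeneous cocycles on the lines `n = 0, 1, …`, with
`Sq¹ f = 0` in `Ext` for `f ∈ F n`, and for each `s` there is a `J` such that for every
`x ∈ Ext^{s+1,t}` and every `j ≥ J`:

1. `x_j` is a polynomial in the members of the families of the elements of the `A n`;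
2. no differential `d_r : E_r^{s+1-r, 2^j t+1-r} → E_r^{s+1, 2^j t}` hits `x_j`, as its source
   vanishes already in `Ext`;
3. `d₂ (x_j) = 0` if and only if `x_j = Sq¹ v + z` in `Ext` for a class `v ∈ Ext^s` and a polynomial
   `z` in the members of the families of the elements of the `F n`.
-/

set_option autoImplicit false

namespace Pool.Agent.Results.MP_701abf_gt.FiniteGeneration

open Pool.Agent.W624.NS Pool.Agent.H59K

theorem result : ∃ A F : (n : ℕ) → Set (Z n),
    (∀ n, (A n).Finite ∧ (F n).Finite ∧ (∀ f ∈ A n, ∃ u, IsHom n u f.1) ∧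
      ∀ f ∈ F n, (∃ u, IsHom n u f.1) ∧ cl (Sq1 n f) = 0) ∧
    ∀ s : ℕ, ∃ J : ℕ, ∀ (t : ℕ) (x : Z (s + 1)), IsHom (s + 1) t x.1 → ∀ j, J ≤ j →
      Poly A (s + 1) (2 ^ j * t) (x.1 ^ 2 ^ j) ∧
      (∀ r, 2 ≤ r → r ≤ s + 1 → ∀ (u : ℕ) (y : Z (s + 1 - r)), IsHom (s + 1 - r) u y.1 →
        u + r = 2 ^ j * t + 1 → cl y = 0) ∧
      ∀ d₂ : (n : ℕ) → Ext n → Ext (n + 2), Bruner d₂ →
        (d₂ (s + 1) ((Sq0 (s + 1))^[j] (cl x)) = 0 ↔
          ∃ (u : ℕ) (v : Z s) (z : Cob (s + 1)), 2 ^ j * t = 2 * u ∧ IsHom s u v.1 ∧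
            Poly F (s + 1) (2 * u) z ∧ IsB (s + 1) (x.1 ^ 2 ^ j - (cupSq s v.1 + z))) :=
  fin_gen

end Pool.Agent.Results.MP_701abf_gt.FiniteGeneration
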