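import Pool.Agent.H59K.KM

/-!
# The New Doomsday Conjecture for products of `Sq⁰`-families with large gaps

`Ext s` is the Adams `s`-line, the cohomology of the cobar complex of the mod 2 dual Steenrod
algebra (`Pool.Agent.W624.NDst`); `x_j` is the `j`-th member of the `Sq⁰`-family of a class `x`, and
a family is called nilpotent (`Nil`) if it is zero from some member on.  `Bruner d₂` says that `d₂`
satisfies Bruner's formula `d₂ (Sq⁰ x) = h₀ Sq¹ x`, as the Adams differential does.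

Part 1.  Let `y` be a class on the line `s' + 1` and `x ∈ Ext^{s,t}`.  If `a` is large (the bound
depends on `s`, `s'`, `t` only, not on `x`, `y` or the degree of `y`), the family of the product
`z = y_a x` is nilpotent only if the family of `x` or of `y` is; otherwise `Sq¹ z` is nilpotent if and
only if `Sq¹ x` and `Sq¹ y` both are; and for `j ≥ J = J(s, s')` the member `z_j` is a `d₂`-cycle only
if `x` or `y` is nilpotent or both `Sq¹ x` and `Sq¹ y` are.

Part 2.  For every `n` there are `A` and `J` such that for all `i₀ > i₁ > ⋯ > i_n` with gaps at least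
`A`, all members of the family of `h_{i₀} ⋯ h_{i_n}` are non-zero in `Ext`, and no member from the
`J`-th on is a `d₂`-cycle.  For `n = 0` this says that `h_i` and `Sq¹ h_i` are not nilpotent, so part 1
with `x = h₀`, or with `y = h₀`, gives: for a non-nilpotent class `y` the family of `y_a h₀` (for `a`
large, depending on the line of `y` only), and for a non-nilpotent `x ∈ Ext^{s,t}` the family of
`h_a x` (for `a` large, depending on `s` and `t`), has only finitely many surviving members.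
-/

set_option autoImplicit false

namespace Pool.Agent.Results.MP_701abf_gt.ProductFamilies

open Pool.Agent.W624.NS Pool.Agent.H59K

theorem result :
    (∀ s s' : ℕ, ∃ J : ℕ, ∀ t : ℕ, ∃ a₀ : ℕ, ∀ a, a₀ ≤ a →
      ∀ (t' : ℕ) (x : Z s) (y : Z (s' + 1)), IsHom s t x.1 → IsHom (s' + 1) t' y.1 →
      (Nil (cl (mulZ ((sqZ (s' + 1))^[a] y) x)) ↔ Nil (cl x) ∨ Nil (cl y)) ∧
      (¬ Nil (cl x) → ¬ Nil (cl y) →
        (Nil (cl (Sq1 (s' + 1 + s) (mulZ ((sqZ (s' + 1))^[a] y) x))) ↔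
          Nil (cl (Sq1 s x)) ∧ Nil (cl (Sq1 (s' + 1) y)))) ∧
      ∀ d₂ : (n : ℕ) → Ext n → Ext (n + 2), Bruner d₂ → ∀ j, J ≤ j →
        (d₂ (s' + 1 + s) ((Sq0 (s' + 1 + s))^[j] (cl (mulZ ((sqZ (s' + 1))^[a] y) x))) = 0 ↔
          Nil (cl x) ∨ Nil (cl y) ∨ (Nil (cl (Sq1 s x)) ∧ Nil (cl (Sq1 (s' + 1) y))))) ∧
    (∀ n : ℕ, ∃ A J : ℕ, ∀ i : ℕ → ℕ, (∀ k < n, i (k + 1) + A ≤ i k) →
      (∀ j, (Sq0 (n + 1))^[j] (cl (mon n i)) ≠ 0) ∧
      ∀ d₂ : (n : ℕ) → Ext n → Ext (n + 2), Bruner d₂ → ∀ j, J ≤ j →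
        d₂ (n + 1) ((Sq0 (n + 1))^[j] (cl (mon n i))) ≠ 0) := by
  refine ⟨prod_crit, fun n => ?_⟩
  obtain ⟨A, hA⟩ := mon_not_nil n
  obtain ⟨J, hJ⟩ := d2_crit (n + 1)
  refine ⟨A, J, fun i hi => ?_⟩
  obtain ⟨h1, h2⟩ := hA i hi
  refine ⟨fun j h => h1 ⟨j, h⟩, fun d₂ hd j hj h => ?_⟩
  obtain ⟨t, ht⟩ := isHom_mon n i
  exact h2 ((hJ d₂ hd t (mon n i) ht j hj).mp h)

end Pool.Agent.Results.MP_701abf_gt.ProductFamilies
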