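import Pool.Agent.H59K.NQ

/-!
# The New Doomsday Conjecture for all but `O((log X)^(n-2))` of the classes on the line `n`

`Ext n` is the Adams `n`-line, the cohomology of the cobar complex of the mod 2 dual Steenrod
algebra (`Pool.Agent.W624.NDst`); `x_j = (Sq⁰)^j x` is the `j`-th member of the `Sq⁰`-family of a
class `x`. The differential `d₂` does not see the families of the classes `Sq¹ v`: they consist of
`d₂`-cycles, and there are at least `c (log X) ^ (n - 1)` of them up to the degree `X` (hand-in
`AlmostAllClasses`). Here they are treated by means of `d₃`.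

The functions `d₂ n : Ext^n → Ext^(n+2)` and `d₃ n : Ext^n → Ext^(n+3)` are arbitrary functions with
three properties of the Adams differentials:

* `Bruner d₂`: `d₂ (Sq⁰ x) = h₀ Sq¹ x` for the classes `x` of even internal degree;
* `H0Lin d₂`: `d₂ (h₀ x) = h₀ d₂ x`;
* `Bruner3 d₂ d₃`: `d₃ (Sq¹ x) = Sq² (d₂ x)` modulo the image of `d₂`, for the classes `x` of internal
  degree divisible by four. Here `Sq²` is given by Steenrod's cup-`(s-2)` product (`Sq2`, `sqC`,
  `cupW`).

`D3ne d₂ d₃ s t x` says that `d₃ x` is not zero on the page `E₃`: `d₃ x ≠ d₂ w` for all `w` of the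
right degree.

Let `n ≥ 4` (`n = m + 4` in the Lean). There are `J`, `X₀` and `c, C > 0` such that for all `X ≥ X₀`
the following is true. Let `Fam n J X` be the set of the non-nilpotent homogeneous classes `x` on
the line `n` of internal degree at most `X`, two of them being identified if their families agree
from the `J`-th member on. This finite set has at least `c (log X) ^ n` elements, and it has a
subset `E` with at most `C (log X) ^ (n - 2)` elements such that for all `x` which are not in `E` and
all `j ≥ J` the class `x_j` does not survive to `E₄`: `d₂ x_j ≠ 0`, or `d₃ x_j ≠ 0` on `E₃`.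

The proof: up to `O((log X) ^ (n - 2))` exceptions the exceptional families of `d₂` are the families
of `Sq¹ v` for the monomials `v = h_{i 0} ⋯ h_{i (n - 2)}` with large gaps (`H59K/NP`; the description
of the classes `v` is due to `helper55`, `H59K/Mon`). For the members of such a family the formulas
give `d₃ (Sq¹ Sq⁰ v) = h₁ Sq² Sq¹ v`. By the Cartan formula for the cup-`i` squares of the products
with a cocycle of degree one (`H59K/NE`) and the Künneth-like theorem for products at different
scales (`H59K/KI`) `Sq² Sq¹ v` is not nilpotent (`H59K/NI`), and `h₁ Sq² Sq¹ v` is not in the image of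
`d₂`, which consists of classes `h₀² Sq¹ u` in these degrees (`H59K/NO`). The explicit families are in
`H59K/NQ`, theorem `mon_explicit`.
-/

set_option autoImplicit false

namespace Pool.Agent.Results.MP_701abf_gt.ThirdDifferential

open Pool.Agent.W624.NS Pool.Agent.H59K

theorem result (m : ℕ) :
    ∃ (J : ℕ) (c C : ℝ) (X₀ : ℕ), 0 < c ∧ ∀ X : ℕ, X₀ ≤ X →
      (Fam (m + 4) J X).Finite ∧
      c * Real.log X ^ (m + 4) ≤ (Fam (m + 4) J X).ncard ∧
      ∃ E ⊆ Fam (m + 4) J X, E.ncard ≤ C * Real.log X ^ (m + 2) ∧
        ∀ (d₂ : (n : ℕ) → Ext n → Ext (n + 2)) (d₃ : (n : ℕ) → Ext n → Ext (n + 3)),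
          Bruner d₂ → H0Lin d₂ → Bruner3 d₂ d₃ →
          ∀ (t : ℕ) (x : Z (m + 4)), t ≤ X → IsHom (m + 4) t x.1 → ¬ Nil (cl x) →
            (Sq0 (m + 4))^[J] (cl x) ∉ E → ∀ j, J ≤ j →
            d₂ (m + 4) ((Sq0 (m + 4))^[j] (cl x)) ≠ 0 ∨
              D3ne d₂ d₃ (m + 4) (2 ^ j * t) ((Sq0 (m + 4))^[j] (cl x)) :=
  third m

end Pool.Agent.Results.MP_701abf_gt.ThirdDifferential
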